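import Pool.Agent.helper37.NG.Spec
import Pool.Agent.helper55.NK.Base

/-!
# Project NG, row G32 (second prover)
-/

set_option autoImplicit false

namespace Pool.Agent.helper37.NG

open Finset Pool.Agent.NK Pool.Agent.helper37.NF

theorem G32 (h1 : PO3_stmt) (h2 : PO4_stmt) (h3 : RT3_stmt) : G32_stmt := by
  intro n t ht h3t h4t
  obtain ⟨r1, r2, r3⟩ := h3 n t (by omega) (by omega)
  have hb := Pool.Agent.NK.Base.block_le n t (by omega) (by omega) 3
  have hbR : (3 : ℝ) * ((n - 3).choose (t - 1) : ℝ) ≤ (MV n t : ℝ) := by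
    unfold MV
    exact_mod_cast hb
  have hn : (33 : ℝ) ≤ n := by
    have : 33 ≤ n := by omega
    exact_mod_cast this
  have htn : (3 : ℝ) * t ≤ n := by exact_mod_cast h3t
  obtain ⟨c, hc⟩ : ∃ c : ℝ, c = (n.choose t : ℝ) := ⟨_, rfl⟩
  have hc0 : 0 ≤ c := by rw [hc]; positivity
  rw [← hc] at r1 r2 r3 ⊢
  have hq3 : 3 ≤ (n + 1) / (t - 2) := (Nat.le_div_iff_mul_le (by omega)).2 (by omega)
  have hq5 : (n + 1) / (t - 2) < 5 := (Nat.div_lt_iff_lt_mul (by omega)).2 (by omega)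
  have hMV : MV n (t - 2) = (n + 1) / (t - 2) * (n - (n + 1) / (t - 2)).choose (t - 3) := by
    unfold MV
    rw [show t - 2 - 1 = t - 3 by omega]
  have hP : (0 : ℝ) < (n : ℝ) * (n - 1) * (n - 2) :=
    mul_pos (mul_pos (by linarith) (by linarith)) (by linarith)
  refine le_trans ?_ hbR
  rcases (show (n + 1) / (t - 2) = 3 ∨ (n + 1) / (t - 2) = 4 by omega) with hq | hq
  · rw [hMV, hq]
    push_cast
    have k1 := mul_le_mul_of_nonneg_right (h1 t n ht h3t h4t) (show (0 : ℝ) ≤ ((n : ℝ) - 2) * c from mul_nonneg (by linarith) hc0)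
    refine le_of_mul_le_mul_right ?_ hP
    have e1 : 3 * ((n - 3).choose (t - 1) : ℝ) * ((n : ℝ) * (n - 1) * (n - 2)) = 3 * (t * ((n : ℝ) - t) * ((n : ℝ) - t - 1) * c) := by
      rw [← r1]; ring
    have e2 : (g3 (t : ℝ) * c + 3 * ((n - 3).choose (t - 3) : ℝ)) * ((n : ℝ) * (n - 1) * (n - 2)) =
        g3 (t : ℝ) * ((n : ℝ) * (n - 1)) * (((n : ℝ) - 2) * c) + 3 * (t * ((t : ℝ) - 1) * ((t : ℝ) - 2) * c) := by
      rw [← r2]; ring
    rw [e1, e2]
    have e3 : 3 * (t : ℝ) * ((n : ℝ) - 2 * t + 1) * (((n : ℝ) - 2) * c) + 3 * (t * ((t : ℝ) - 1) * ((t : ℝ) - 2) * c) =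
        3 * (t * ((n : ℝ) - t) * ((n : ℝ) - t - 1) * c) := by ring
    linarith
  · have h9 : 4 * t ≤ n + 9 := by
      have := (Nat.le_div_iff_mul_le (show 0 < t - 2 by omega)).1 (show 4 ≤ (n + 1) / (t - 2) by omega)
      omega
    rw [hMV, hq]
    push_cast
    have k1 := mul_le_mul_of_nonneg_right (h2 t n ht h9 h4t) hc0
    have hP4 : (0 : ℝ) < (n : ℝ) * (n - 1) * (n - 2) * (n - 3) := mul_pos hP (by linarith)
    refine le_of_mul_le_mul_right ?_ hP4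
    have e1 : 3 * ((n - 3).choose (t - 1) : ℝ) * ((n : ℝ) * (n - 1) * (n - 2) * (n - 3)) =
        3 * (t * ((n : ℝ) - t) * ((n : ℝ) - t - 1) * c) * (n - 3) := by
      rw [← r1]; ring
    have e2 : (g3 (t : ℝ) * c + 4 * ((n - 4).choose (t - 3) : ℝ)) * ((n : ℝ) * (n - 1) * (n - 2) * (n - 3)) =
        g3 (t : ℝ) * ((n : ℝ) * (n - 1) * (n - 2) * (n - 3)) * c + 4 * (t * ((t : ℝ) - 1) * ((t : ℝ) - 2) * ((n : ℝ) - t) * c) := by
      rw [← r3]; ring
    rw [e1, e2]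
    linarith

end Pool.Agent.helper37.NG
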